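import Pool.Agent.H261R3.LN.Stmts
import Pool.Agent.H744R3.LH.StageAB

/-! Task Stage1N of project LN (MP_e25190_gt), by helper531, after the case `n = 2` by helper744. -/

set_option autoImplicit false

namespace Pool.Agent.H531R3.LN

open Pool.Agent.H261R3.LH (Lip1 IsLNR clip clip_nonneg)
open Pool.Agent.H261R3.LN
open Pool.Agent.H744R3.LH (clip_le_one clip_of_mem abs_clip_sub lip_mono lip_nonneg lip_le lip_of_cells
  ev ev_lip ev_neg ev_mid ev_pos)

section
variable {S : Type} [MetricSpace S] {m : ℕ}

lemma fract_floor (k : ℤ) {s : ℝ} (h0 : 0 ≤ s) (h1 : s < 1) : ⌊(k : ℝ) + s⌋ = k ∧ Int.fract ((k : ℝ) + s) = s := by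
  have hf : ⌊(k : ℝ) + s⌋ = k := by
    rw [Int.floor_intCast_add, Int.floor_eq_zero_iff.2 ⟨h0, h1⟩, add_zero]
  refine ⟨hf, ?_⟩
  unfold Int.fract
  rw [hf]; ring

lemma norm_cell {C : ℝ} {G : ℤ → (Fin m → ℤ) → (Fin m → ℝ) → ℝ → S} (hG : GoodN C G) (j : ℤ) (h : ℝ) :
    ∀ (N : ℕ) (k : Fin m → ℤ) (s : Fin m → ℝ), InCube s → (Finset.univ.filter fun i => s i = 1).card = N →
      G j k s h = G j (fun i => ⌊(k i : ℝ) + s i⌋) (fun i => Int.fract ((k i : ℝ) + s i)) h := by
  intro N
  induction N with
  | zero =>
    intro k s hs hc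
    rw [Finset.card_eq_zero, Finset.filter_eq_empty_iff] at hc
    have h1 : ∀ i, s i < 1 := fun i => lt_of_le_of_ne (hs i).2 (hc (Finset.mem_univ i))
    have e1 : (fun i => ⌊(k i : ℝ) + s i⌋) = k := funext fun i => (fract_floor (k i) (hs i).1 (h1 i)).1
    have e2 : (fun i => Int.fract ((k i : ℝ) + s i)) = s := funext fun i => (fract_floor (k i) (hs i).1 (h1 i)).2
    rw [e1, e2]
  | succ N ih =>
    intro k s hs hc
    have hne : (Finset.univ.filter fun i => s i = 1).Nonempty := by
      rw [← Finset.card_pos, hc]; omega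
    obtain ⟨i, hi⟩ := hne
    have hi1 : s i = 1 := (Finset.mem_filter.1 hi).2
    rw [hG.lr j k s h i hs hi1]
    have hs' : InCube (Function.update s i 0) := by
      intro l
      by_cases hl : l = i
      · subst hl; rw [Function.update_self]; exact ⟨le_rfl, zero_le_one⟩
      · rw [Function.update_of_ne hl]; exact hs l
    have hc' : (Finset.univ.filter fun l => Function.update s i 0 l = 1).card = N := by
      have : (Finset.univ.filter fun l => Function.update s i 0 l = 1) =
          (Finset.univ.filter fun l => s l = 1).erase i := by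
        ext l
        simp only [Finset.mem_filter, Finset.mem_univ, true_and, Finset.mem_erase]
        by_cases hl : l = i
        · subst hl; simp
        · simp [Function.update_of_ne hl, hl]
      rw [this, Finset.card_erase_of_mem hi, hc]; rfl
    rw [ih _ _ hs' hc']
    have e : ∀ l, ((Function.update k i (k i + 1) l : ℤ) : ℝ) + Function.update s i 0 l = k l + s l := by
      intro l
      by_cases hl : l = i
      · subst hl; rw [Function.update_self, Function.update_self, hi1]; push_cast; ring
      · rw [Function.update_of_ne hl, Function.update_of_ne hl]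
    simp only [e]

/-- the slice functions -/
noncomputable def slice (G : ℤ → (Fin m → ℤ) → (Fin m → ℝ) → ℝ → S) (j : ℤ) (v : Fin m → ℝ) : S :=
  G j (fun i => ⌊v i⌋) (fun i => Int.fract (v i)) 0

lemma slice_eq {C : ℝ} {G : ℤ → (Fin m → ℤ) → (Fin m → ℝ) → ℝ → S} (hG : GoodN C G) (j : ℤ) (k : Fin m → ℤ)
    {s : Fin m → ℝ} (hs : InCube s) : slice G j (fun i => (k i : ℝ) + s i) = G j k s 0 :=
  (norm_cell hG j 0 _ k s hs rfl).symm

lemma lipN_of_coord {C : ℝ} (hC : 0 ≤ C) {f : (Fin m → ℝ) → S}
    (h : ∀ i v, Lip1 C (fun u => f (Function.update v i u))) : LipN (m * C) f := by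
  intro v w
  have key : ∀ A : Finset (Fin m), dist (f v) (f (A.piecewise w v)) ≤ A.card * C * dist v w := by
    intro A
    induction A using Finset.induction_on with
    | empty => simp
    | insert a A ha ih =>
      rw [Finset.piecewise_insert, Finset.card_insert_of_notMem ha]
      have h1 := h a (A.piecewise w v) (v a) (w a)
      have h2 : Function.update (A.piecewise w v) a (v a) = A.piecewise w v := by
        conv_rhs => rw [← Function.update_eq_self a (A.piecewise w v)]
        rw [Finset.piecewise_eq_of_notMem _ _ _ ha]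
      simp only [h2] at h1
      have h3 : |v a - w a| ≤ dist v w := by
        have := dist_le_pi_dist v w a
        rwa [Real.dist_eq] at this
      calc dist (f v) (f (Function.update (A.piecewise w v) a (w a)))
          ≤ dist (f v) (f (A.piecewise w v)) + dist (f (A.piecewise w v)) (f (Function.update (A.piecewise w v) a (w a))) :=
            dist_triangle _ _ _
        _ ≤ A.card * C * dist v w + C * dist v w := by
            refine add_le_add ih (h1.trans (mul_le_mul_of_nonneg_left h3 hC))
        _ = _ := by push_cast; ring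
  have h1 := key Finset.univ
  rw [Finset.piecewise_univ, Finset.card_univ, Fintype.card_fin] at h1
  exact h1

lemma slice_lip {C : ℝ} (hC : 0 ≤ C) {G : ℤ → (Fin m → ℤ) → (Fin m → ℝ) → ℝ → S} (hG : GoodN C G) (j : ℤ) :
    LipN (m * C) (slice G j) := by
  refine lipN_of_coord hC fun i v => ?_
  refine lip_of_cells fun k x y hx hxy hy => ?_
  have e : ∀ u : ℝ, (k : ℝ) ≤ u → u ≤ k + 1 → slice G j (Function.update v i u) =
      G j (Function.update (fun l => ⌊v l⌋) i k) (Function.update (fun l => Int.fract (v l)) i (u - k)) 0 := by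
    intro u hu hu1
    have hc : InCube (Function.update (fun l => Int.fract (v l)) i (u - k)) := by
      intro l
      by_cases hl : l = i
      · subst hl; rw [Function.update_self]; constructor <;> linarith
      · rw [Function.update_of_ne hl]; exact ⟨Int.fract_nonneg _, (Int.fract_lt_one _).le⟩
    rw [← slice_eq hG j _ hc]
    congr 1
    funext l
    by_cases hl : l = i
    · subst hl; rw [Function.update_self, Function.update_self, Function.update_self]; ring
    · rw [Function.update_of_ne hl, Function.update_of_ne hl, Function.update_of_ne hl, Int.floor_add_fract]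
  rw [e x hx (by linarith), e y (by linarith) hy]
  refine (hG.ls j _ 0 _ _).trans ?_
  refine mul_le_mul_of_nonneg_left ?_ hC
  rw [dist_pi_le_iff (by linarith)]
  intro l
  by_cases hl : l = i
  · subst hl
    rw [Function.update_self, Function.update_self, Real.dist_eq, abs_sub_comm,
      abs_of_nonneg (by linarith)]
    linarith
  · rw [Function.update_of_ne hl, Function.update_of_ne hl, dist_self]; linarith

lemma slice_top {C : ℝ} {G : ℤ → (Fin m → ℤ) → (Fin m → ℝ) → ℝ → S} (hG : GoodN C G) (j : ℤ) (k : Fin m → ℤ)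
    {s : Fin m → ℝ} (hs : InCube s) : slice G (j + 1) (fun i => ((k i : ℝ) + s i) / 2) = G j k s 1 := by
  have hb : ∀ i, k i % 2 = 0 ∨ k i % 2 = 1 := fun i => Int.emod_two_eq_zero_or_one (k i)
  have hk : (fun i => 2 * (k i / 2) + k i % 2) = k := funext fun i => Int.mul_ediv_add_emod (k i) 2
  have h1 := hG.tb j (fun i => k i / 2) (fun i => k i % 2) hb s hs
  rw [hk] at h1
  have hc : InCube (fun i => (((k i % 2 : ℤ) : ℝ) + s i) / 2) := by
    intro i
    have := hs i
    rcases hb i with h | h <;> simp only [h] <;> push_cast <;> constructor <;> linarith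
  rw [h1, ← slice_eq hG (j + 1) _ hc]
  congr 1
  funext i
  have h2 : (k i : ℝ) = 2 * ((k i / 2 : ℤ) : ℝ) + ((k i % 2 : ℤ) : ℝ) := by
    have := congrFun hk i
    exact_mod_cast this.symm
  rw [h2]
  push_cast
  ring

lemma dist_clip_le (a : Fin m → ℝ) (x y : Fin m → ℝ) :
    dist (fun i => a i + clip (x i)) (fun i => a i + clip (y i)) ≤ dist x y := by
  rw [dist_pi_le_iff dist_nonneg]
  intro i
  rw [Real.dist_eq]
  have h1 := abs_clip_sub (x i) (y i)
  have h2 := dist_le_pi_dist x y i
  rw [Real.dist_eq] at h2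
  have e : a i + clip (x i) - (a i + clip (y i)) = clip (x i) - clip (y i) := by ring
  rw [e]
  exact h1.trans h2

end

theorem taskStage1N : TaskStage1N := by
  intro S _ p m hKill C
  obtain ⟨C0, hC0, hkill⟩ := hKill (m * C)
  refine ⟨3 * max C C0, by positivity, fun G hG => ?_⟩
  have hC : 0 ≤ C := lip_nonneg (hG.lh 0 (fun _ => 0) (fun _ => 0))
  set L := max C C0 with hL
  have hLC : C ≤ L := le_max_left _ _
  have hLC0 : C0 ≤ L := le_max_right _ _
  have hL0 : 0 ≤ L := hC.trans hLC
  have hmC : 0 ≤ (m : ℝ) * C := by positivity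
  have hex : ∀ j : ℤ, ∃ g : (Fin m → ℝ) → ℝ → S, (∀ t, LipN C0 (fun v => g v t)) ∧
      (∀ v, Lip1 C0 (fun t => g v t)) ∧ (∀ v, g v 0 = slice G j v) ∧ ∀ v, g v 1 = p := by
    intro j
    obtain ⟨g, hg, hg1⟩ := hkill (fun x _ => slice G j x) (fun _ => slice_lip hC hG j)
      (fun x u u' => by rw [dist_self]; exact mul_nonneg hmC dist_nonneg)
      (fun x u hu => by obtain ⟨i, _⟩ := hu; exact i.elim0)
    exact ⟨fun v t => g t v 0, fun t => hg.lx t 0, fun v => hg.lt v 0,
      fun v => hg.start v 0 (fun i => i.elim0), fun v => hg1 v 0⟩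
  choose g hg1 hg2 hg3 hg4 using hex
  let cl : (Fin m → ℝ) → (Fin m → ℝ) := fun s i => clip (s i)
  have hcl : ∀ s, InCube (cl s) := fun s i => ⟨clip_nonneg _, clip_le_one _⟩
  have hcl' : ∀ s, InCube s → cl s = s := fun s hs => funext fun i => clip_of_mem (hs i).1 (hs i).2
  let kv : (Fin m → ℤ) → (Fin m → ℝ) → (Fin m → ℝ) := fun k s i => (k i : ℝ) + clip (s i)
  -- the homotopy
  let e : ℤ → (Fin m → ℤ) → (Fin m → ℝ) → ℝ → S := fun j k s u =>
    ev (g j (kv k s)) (g (j + 1) (fun i => kv k s i / 2)) (G j k (cl s)) u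
  have e0 : ∀ (j : ℤ) (k : Fin m → ℤ) (s : Fin m → ℝ), g j (kv k s) 0 = G j k (cl s) 0 := fun j k s => by
    rw [hg3]; exact slice_eq hG j k (hcl s)
  have e1 : ∀ (j : ℤ) (k : Fin m → ℤ) (s : Fin m → ℝ), G j k (cl s) 1 = g (j + 1) (fun i => kv k s i / 2) 0 :=
    fun j k s => by
      rw [hg3]; exact (slice_top hG j k (hcl s)).symm
  have eu : ∀ j k s, Lip1 L (e j k s) := fun j k s =>
    ev_lip (lip_mono (hg2 _ _) hLC0) (lip_mono (hg2 _ _) hLC0) (lip_mono (hG.lh _ _ _) hLC)
      (e0 j k s) (e1 j k s)
  have es : ∀ j k u, LipN L (fun s => e j k s u) := by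
    intro j k u x y
    have hxy : dist (kv k x) (kv k y) ≤ dist x y := dist_clip_le (fun i => (k i : ℝ)) x y
    show dist (ev _ _ _ u) (ev _ _ _ u) ≤ _
    by_cases h0 : u ≤ 0
    · rw [ev_neg _ _ _ h0, ev_neg _ _ _ h0]
      calc _ ≤ _ := hg1 j (-u) (kv k x) (kv k y)
        _ ≤ L * dist x y := mul_le_mul hLC0 hxy dist_nonneg hL0
    · have h0' := (not_le.1 h0).le
      by_cases h1 : u ≤ 1
      · rw [ev_mid (e0 j k x) h0' h1, ev_mid (e0 j k y) h0' h1]
        have h2 : dist (cl x) (cl y) ≤ dist x y := by
          have := dist_clip_le (fun _ => (0 : ℝ)) x y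
          simpa using this
        calc _ ≤ _ := hG.ls j k u (cl x) (cl y)
          _ ≤ L * dist x y := mul_le_mul hLC h2 dist_nonneg hL0
      · have h1' := (not_le.1 h1).le
        rw [ev_pos (e0 j k x) (e1 j k x) h1', ev_pos (e0 j k y) (e1 j k y) h1']
        have h2 : dist (fun i => kv k x i / 2) (fun i => kv k y i / 2) ≤ dist x y := by
          rw [dist_pi_le_iff dist_nonneg]
          intro i
          have h3 := (dist_le_pi_dist (kv k x) (kv k y) i).trans hxy
          rw [Real.dist_eq] at h3 ⊢
          rw [← sub_div, abs_div, abs_two]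
          have := abs_nonneg (kv k x i - kv k y i)
          linarith
        calc _ ≤ _ := hg1 (j + 1) (u - 1) (fun i => kv k x i / 2) (fun i => kv k y i / 2)
          _ ≤ L * dist x y := mul_le_mul hLC0 h2 dist_nonneg hL0
  let H : ℝ → ℤ → (Fin m → ℤ) → (Fin m → ℝ) → ℝ → S := fun t j k s h =>
    e j k s ((1 + 2 * clip t) * clip h - clip t)
  have c0 : clip 0 = 0 := clip_of_mem le_rfl zero_le_one
  have c1 : clip 1 = 1 := clip_of_mem zero_le_one le_rfl
  have hgood : ∀ t, GoodN (3 * L) (H t) := by
    intro t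
    have ht0 := clip_nonneg t
    have ht1 := clip_le_one t
    refine ⟨fun j k h x y => ?_, fun j k s x y => ?_, fun j k s h i hs hi => ?_, fun j k b hb s hs => ?_⟩
    · refine (es j k _ x y).trans (mul_le_mul_of_nonneg_right (by linarith) dist_nonneg)
    · have := eu j k s ((1 + 2 * clip t) * clip x - clip t) ((1 + 2 * clip t) * clip y - clip t)
      have e : |(1 + 2 * clip t) * clip x - clip t - ((1 + 2 * clip t) * clip y - clip t)|
          = (1 + 2 * clip t) * |clip x - clip y| := by
        rw [show (1 + 2 * clip t) * clip x - clip t - ((1 + 2 * clip t) * clip y - clip t)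
          = (1 + 2 * clip t) * (clip x - clip y) by ring, abs_mul,
          abs_of_nonneg (by linarith : 0 ≤ 1 + 2 * clip t)]
      rw [e] at this
      calc _ ≤ _ := this
        _ ≤ L * (3 * |x - y|) := by
          refine mul_le_mul_of_nonneg_left ?_ hL0
          exact mul_le_mul (by linarith) (abs_clip_sub x y) (abs_nonneg _) (by norm_num)
        _ = 3 * L * |x - y| := by ring
    · show ev _ _ _ _ = ev _ _ _ _
      have hs' : InCube (Function.update s i 0) := by
        intro l
        by_cases hl : l = i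
        · subst hl; rw [Function.update_self]; exact ⟨le_rfl, zero_le_one⟩
        · rw [Function.update_of_ne hl]; exact hs l
      have a1 : kv k s = kv (Function.update k i (k i + 1)) (Function.update s i 0) := by
        funext l
        show (k l : ℝ) + clip (s l) = ((Function.update k i (k i + 1) l : ℤ) : ℝ) + clip (Function.update s i 0 l)
        by_cases hl : l = i
        · subst hl
          rw [Function.update_self, Function.update_self, hi, c0, c1]; push_cast; ring
        · rw [Function.update_of_ne hl, Function.update_of_ne hl]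
      have a2 : G j k (cl s) = G j (Function.update k i (k i + 1)) (cl (Function.update s i 0)) := by
        rw [hcl' s hs, hcl' _ hs']
        exact funext fun u => hG.lr j k s u i hs hi
      rw [a1, a2]
    · show ev _ _ _ _ = ev _ _ _ _
      rw [c0, c1, ev_pos (e0 _ _ _) (e1 _ _ _) (by linarith), ev_neg _ _ _ (by linarith)]
      have a1 : (fun i => kv (fun i => 2 * k i + b i) s i / 2) = kv k (fun i => ((b i : ℝ) + s i) / 2) := by
        funext i
        show (((2 * k i + b i : ℤ) : ℝ) + clip (s i)) / 2 = (k i : ℝ) + clip (((b i : ℝ) + s i) / 2)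
        have h1 := hs i
        have h2 : clip (((b i : ℝ) + s i) / 2) = ((b i : ℝ) + s i) / 2 := by
          rcases hb i with h | h <;> rw [h] <;> push_cast <;> apply clip_of_mem <;> linarith
        rw [h2, clip_of_mem h1.1 h1.2]
        push_cast
        ring
      rw [a1]
      congr 1
      ring
  refine ⟨H 1, ⟨H, hgood, fun j k s h x y => ?_, fun j k s h hs hh0 hh1 => ?_,
    fun j k s h _ _ _ => rfl⟩, hgood 1, fun j k s => ⟨?_, ?_⟩⟩
  · have := eu j k s ((1 + 2 * clip x) * clip h - clip x) ((1 + 2 * clip y) * clip h - clip y)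
    have hh0 := clip_nonneg h
    have hh1 := clip_le_one h
    have e : |(1 + 2 * clip x) * clip h - clip x - ((1 + 2 * clip y) * clip h - clip y)|
        = |2 * clip h - 1| * |clip x - clip y| := by
      rw [← abs_mul]; congr 1; ring
    rw [e] at this
    have h1 : |2 * clip h - 1| ≤ 3 := by rw [abs_le]; constructor <;> linarith
    calc _ ≤ _ := this
      _ ≤ L * (3 * |x - y|) := by
        refine mul_le_mul_of_nonneg_left ?_ hL0
        exact mul_le_mul h1 (abs_clip_sub x y) (abs_nonneg _) (by norm_num)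
      _ = 3 * L * |x - y| := by ring
  · show ev _ _ _ _ = _
    have e0' := e0 j k s
    rw [c0, clip_of_mem hh0 hh1, ev_mid e0' (by linarith) (by linarith), hcl' s hs]
    congr 1; ring
  · show ev _ _ _ _ = _
    rw [c0, c1, ev_neg _ _ _ (by norm_num)]
    rw [show -((1 + 2 * 1) * 0 - 1 : ℝ) = 1 by norm_num]
    exact hg4 _ _
  · show ev _ _ _ _ = _
    rw [c1, ev_pos (e0 _ _ _) (e1 _ _ _) (by norm_num)]
    rw [show ((1 + 2 * 1) * 1 - 1 - 1 : ℝ) = 1 by norm_num]
    exact hg4 _ _

end Pool.Agent.H531R3.LN
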